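import Pool.Agent.BE01.Stmts

/-!
Squad BE01, module BAS: the approximate solution of order zero.
-/

set_option autoImplicit false

namespace Pool.Agent.BE01.H17

open Set Filter Topology Pool.Agent.BE01
open scoped InnerProductSpace

noncomputable section

/-- a sine with a coefficient -/
theorem sin_mem {M : Type} [NormedAddCommGroup M] [NormedSpace ℝ M] (α : ℕ) (m : M) :
    (fun ψ _ => Real.sin ψ • m) ∈ PP M α 1 := by
  apply Submodule.subset_span
  refine ⟨0, 1, by omega, m, Or.inr ?_⟩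
  funext ψ δ
  simp

theorem cos_mem {M : Type} [NormedAddCommGroup M] [NormedSpace ℝ M] (α : ℕ) (m : M) :
    (fun ψ _ => Real.cos ψ • m) ∈ PP M α 1 := by
  apply Submodule.subset_span
  refine ⟨0, 1, by omega, m, Or.inl ?_⟩
  funext ψ δ
  simp

theorem const_mem {M : Type} [NormedAddCommGroup M] [NormedSpace ℝ M] (α : ℕ) (m : M) :
    (fun (_ _ : ℝ) => m) ∈ PP M α 0 := by
  apply Submodule.subset_span
  refine ⟨0, 0, by omega, m, Or.inl ?_⟩
  funext ψ δ
  simp

theorem pow_mem_PP (hprd : PrdStmt) {X : Type} [NormedCommRing X] [NormedAlgebra ℝ X] (α : ℕ)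
    {P : ℝ → ℝ → X} (hP : P ∈ PP X α 1) (n : ℕ) : (fun ψ δ => P ψ δ ^ n) ∈ PP X α n := by
  induction n with
  | zero =>
    have := const_mem α (1 : X)
    simpa using this
  | succ n ih =>
    have h := hprd X X X (ContinuousLinearMap.mul ℝ X) α n 1 _ P ih hP
    have e : (fun ψ δ => P ψ δ ^ (n + 1)) =
        fun ψ δ => (ContinuousLinearMap.mul ℝ X) (P ψ δ ^ n) (P ψ δ) := by
      funext ψ δ
      rw [ContinuousLinearMap.mul_apply', pow_succ]
    rw [e]
    exact h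

/-- the operator `D` for `a = b = 0` -/
theorem DD_zero {M : Type} [NormedAddCommGroup M] [NormedSpace ℝ M] (α : ℕ) (ω : ℝ)
    {f f' : ℝ → ℝ} (h : ∀ s, HasDerivAt f (f' s) s) (x : M) :
    DD α ω 0 0 (fun ψ _ => f ψ • x) = fun ψ _ => (ω * f' ψ) • x := by
  funext ψ δ
  unfold DD dps
  rw [((h ψ).smul_const x).deriv, Polynomial.eval_zero, zero_smul, zero_add, add_zero, smul_smul]

theorem bas (hprd : PrdStmt) (hprm : PrmStmt) : BasStmt := by
  intro X Y H _ _ _ _ _ _ A W p a0 ω φ hp hω hφ hpos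
  set x : X := W.SX ((ω ^ 2) • φ) with hx
  have hex : A.e x = φ := by
    rw [hx, W.e_SX, map_smul, hφ]
  have hmem : (fun ψ (_ : ℝ) => ((-(ω * Real.sin ψ)) • x) ^ (2 * p + 1)) ∈
      PP X (2 * p) (2 * p + 1) := by
    have h := pow_mem_PP hprd (2 * p) (sin_mem (2 * p) ((-ω) • x)) (2 * p + 1)
    have e : (fun ψ (_ : ℝ) => ((-(ω * Real.sin ψ)) • x) ^ (2 * p + 1)) =
        fun ψ (_ : ℝ) => (Real.sin ψ • ((-ω) • x)) ^ (2 * p + 1) := by
      funext ψ δ
      rw [smul_smul]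
      congr 2
      ring
    rw [e]
    exact h
  have hD1 : DD (2 * p) ω 0 0 (fun ψ (_ : ℝ) => Real.cos ψ • x) =
      fun ψ _ => (-(ω * Real.sin ψ)) • x := by
    rw [DD_zero (2 * p) ω (f' := fun s => -Real.sin s) (fun s => Real.hasDerivAt_cos s) x]
    funext ψ δ
    congr 1
    ring
  have hD2 : DD (2 * p) ω 0 0 (fun ψ (_ : ℝ) => (-(ω * Real.sin ψ)) • x) =
      fun ψ _ => (-(ω ^ 2 * Real.cos ψ)) • x := by
    rw [DD_zero (2 * p) ω (f := fun ψ => -(ω * Real.sin ψ))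
      (f' := fun s => -(ω * Real.cos s))
      (fun s => ((Real.hasDerivAt_sin s).const_mul ω).neg) x]
    funext ψ δ
    congr 1
    ring
  refine ⟨fun ψ _ => a0 • A.e (((-(ω * Real.sin ψ)) • x) ^ (2 * p + 1)), ?_, ?_⟩
  · refine ⟨by simp, by simp, ?_, ?_, ?_, ?_, ?_, ?_, ?_⟩
    · have h := cos_mem (2 * p) ((ω ^ 2) • φ)
      have e : (fun ψ (_ : ℝ) => (ω ^ 2 * Real.cos ψ) • φ) =
          fun ψ (_ : ℝ) => Real.cos ψ • ((ω ^ 2) • φ) := by
        funext ψ δ
        rw [smul_smul, mul_comm]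
      rw [e]
      exact h
    · intro ψ δ
      show (ω ^ 2 * Real.cos (ψ + Real.pi)) • φ = -((ω ^ 2 * Real.cos ψ) • φ)
      rw [Real.cos_add_pi, mul_neg, neg_smul]
    · intro ψ δ
      show Real.cos ψ • x = W.SX ((ω ^ 2 * Real.cos ψ) • φ)
      rw [hx, ← map_smul, smul_smul, mul_comm]
    · intro ψ
      rfl
    · have h := ((hprm X H (a0 • A.e) (2 * p) (2 * p + 1)).2.2 _ hmem).1
      have e : 1 + 2 * p * (0 + 1) = 2 * p + 1 := by ring
      rw [e]
      exact h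
    · intro ψ δ
      show a0 • A.e (((-(ω * Real.sin (ψ + Real.pi))) • x) ^ (2 * p + 1)) =
        -(a0 • A.e (((-(ω * Real.sin ψ)) • x) ^ (2 * p + 1)))
      have e : (-(ω * Real.sin (ψ + Real.pi))) • x = -((-(ω * Real.sin ψ)) • x) := by
        rw [Real.sin_add_pi, mul_neg, neg_smul]
      have ho : Odd (2 * p + 1) := ⟨p, rfl⟩
      rw [e, ho.neg_pow, map_neg, smul_neg]
    · intro ψ δ
      unfold Rsd
      rw [hD1, hD2]
      show A.e ((-(ω ^ 2 * Real.cos ψ)) • x) + (ω ^ 2 * Real.cos ψ) • φ +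
        (a0 * δ) • A.e (((-(ω * Real.sin ψ)) • x) ^ (2 * p + 1)) =
        δ ^ (0 + 1) • (a0 • A.e (((-(ω * Real.sin ψ)) • x) ^ (2 * p + 1)))
      rw [map_smul, hex, neg_smul, neg_add_cancel, zero_add, zero_add, pow_one, smul_smul,
        mul_comm a0 δ]
  · set c : ℝ := ⟪A.e (x ^ (2 * p + 1)), φ⟫_ℝ with hc
    have hF : ∀ s : ℝ, Real.sin s * ⟪a0 • A.e (((-(ω * Real.sin s)) • x) ^ (2 * p + 1)), φ⟫_ℝ =
        (-(a0 * ω ^ (2 * p + 1) * c)) * Real.sin s ^ (2 * p + 2) := by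
      intro s
      have ho : Odd (2 * p + 1) := ⟨p, rfl⟩
      rw [smul_pow, map_smul, inner_smul_left, inner_smul_left, ho.neg_pow, mul_pow]
      simp only [conj_trivial]
      rw [← hc]
      ring
    unfold sc cp
    simp only [hF]
    rw [intervalIntegral.integral_const_mul]
    have hω0 : ω ≠ 0 := hω.ne'
    field_simp
    ring

end

end Pool.Agent.BE01.H17
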